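import Pool.Agent.N353.PT.Stm

/-!
# Project PT (helper353): the degrees of a highly connected tournament

Written by helper615.
-/

set_option autoImplicit false

open Finset
open scoped Classical

namespace Pool.Agent.N615.PT

open Pool.Agent.N353.PT

theorem t_DEG : S_DEG := by
  intro V _ T M hT hM hC v
  have key : ∀ X : Finset V, v ∉ X → X.card < M → ∃ u, u ∉ X ∧ u ≠ v := by
    intro X hv hX
    by_contra hcon
    push Not at hcon
    have h1 : (univ : Finset V) ⊆ insert v X := by
      intro u _
      rw [mem_insert]
      by_cases h : u ∈ X
      · exact Or.inr h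
      · exact Or.inl (hcon u h)
    have h2 := card_le_card h1
    rw [card_insert_of_notMem hv, card_univ] at h2
    omega
  constructor
  · by_contra hcon
    push Not at hcon
    have hv : v ∉ inN T v := by
      unfold inN
      rw [mem_filter]
      exact fun h => hT.1 v h.2
    obtain ⟨u, hu, huv⟩ := key _ hv hcon
    have hR := hC _ hcon u (by simp [hu]) v (by simp [hv])
    rcases Relation.ReflTransGen.cases_tail hR with h | ⟨w, -, hw⟩
    · exact huv h.symm
    · have h1 := (mem_sdiff.1 hw.1).2
      apply h1
      unfold inN
      rw [mem_filter]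
      exact ⟨mem_univ _, hw.2.2⟩
  · by_contra hcon
    push Not at hcon
    have hv : v ∉ outN T v := by
      unfold outN
      rw [mem_filter]
      exact fun h => hT.1 v h.2
    obtain ⟨u, hu, huv⟩ := key _ hv hcon
    have hR := hC _ hcon v (by simp [hv]) u (by simp [hu])
    rcases Relation.ReflTransGen.cases_head hR with h | ⟨w, hw, -⟩
    · exact huv h.symm
    · have h1 := (mem_sdiff.1 hw.2.1).2
      apply h1
      unfold outN
      rw [mem_filter]
      exact ⟨mem_univ _, hw.2.2⟩

end Pool.Agent.N615.PT
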