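import Mathlib
import Pool.Agent.N990.PT.Stm

/-!
# PT/EXI: existence of a Gibbs state of the Potts model by compactness

Adapted from `Pool/Agent/N712/RT/EXI.lean`.
-/

set_option autoImplicit false

open MeasureTheory ProbabilityTheory Filter Topology
open Pool.Agent.N988.EA
open Pool.Agent.N990.PT

namespace Pool.Agent.N615.PT

noncomputable section

variable {b q : ℕ} {β : ℝ} {p : ℕ → Fin b × Bool}

theorem ends_cont (p : ℕ → Fin b × Bool) (n : ℕ) :
    Continuous (ends p n : (VInf p → Fin q) → Bool → Fin q) := by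
  unfold ends
  exact continuous_pi fun t => continuous_apply _

theorem fends_cont (p : ℕ → Fin b × Bool) (n : ℕ) (f : (Bool → Fin q) → ℝ) :
    Continuous fun ω : VInf p → Fin q => f (ends p n ω) :=
  (continuous_of_discreteTopology (f := f)).comp (ends_cont p n)

theorem repl_cont (h2 : S_GEO) (p : ℕ → Fin b × Bool) (n : ℕ) (s : Vert b n → Fin q) :
    Continuous fun ω : VInf p → Fin q => repl p n ω s :=
  (h2 b q p).2.2.2.2.2.2.1 n s

theorem repl_meas (h2 : S_GEO) (p : ℕ → Fin b × Bool) (n : ℕ) (s : Vert b n → Fin q) :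
    Measurable fun ω : VInf p → Fin q => repl p n ω s :=
  (h2 b q p).2.2.2.2.2.2.2 n s

theorem gw_cont (β : ℝ) (p : ℕ → Fin b × Bool) (n : ℕ) (s : Vert b n → Fin q) :
    Continuous fun ω : VInf p → Fin q => gw β n (ends p n ω) s :=
  fends_cont p n fun τ => gw β n τ s

theorem gw_le (h3 : S_GWF) (β : ℝ) (n : ℕ) (τ : Bool → Fin q) (s : Vert b n → Fin q) :
    gw β n τ s ≤ 1 := by
  rw [← (h3 b q β n τ).2.2]
  exact Finset.single_le_sum (f := fun s => gw β n τ s) (fun i _ => (h3 b q β n τ).2.1 i)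
    (Finset.mem_univ s)

theorem GG_cont (h2 : S_GEO) (β : ℝ) (n : ℕ) {f : (VInf p → Fin q) → ℝ} (hf : Continuous f) :
    Continuous (GG β p n f) := by
  unfold GG
  exact continuous_finsetSum _ fun s _ => (gw_cont β p n s).mul (hf.comp (repl_cont h2 p n s))

theorem GG_cons (h1 : S_CNS) (f : (VInf p → Fin q) → ℝ) (n k : ℕ) :
    GG β p (n + 1 + k) (GG β p n f) = GG β p (n + 1 + k) f := by
  induction k with
  | zero => exact funext fun ω => h1 b q β p n f ω
  | succ k ih =>
    have e1 : GG β p (n + 1 + k + 1) (GG β p (n + 1 + k) (GG β p n f)) =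
        GG β p (n + 1 + k + 1) (GG β p n f) :=
      funext fun ω => h1 b q β p (n + 1 + k) (GG β p n f) ω
    have e2 : GG β p (n + 1 + k + 1) (GG β p (n + 1 + k) f) = GG β p (n + 1 + k + 1) f :=
      funext fun ω => h1 b q β p (n + 1 + k) f ω
    rw [ih] at e1
    exact e1.symm.trans e2

/-- The finite volume law. -/
def muN (β : ℝ) (p : ℕ → Fin b × Bool) (k : Fin q) (N : ℕ) : Measure (VInf p → Fin q) :=
  ∑ s : Vert b N → Fin q, ENNReal.ofReal (gw β N (ends p N fun _ => k) s) •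
    Measure.dirac (repl p N (fun _ => k) s)

theorem muN_prob (h3 : S_GWF) (β : ℝ) (p : ℕ → Fin b × Bool) (k : Fin q) (N : ℕ) :
    IsProbabilityMeasure (muN β p k N) := by
  constructor
  unfold muN
  rw [Measure.finsetSum_apply]
  have e : ∀ s : Vert b N → Fin q, (ENNReal.ofReal (gw β N (ends p N fun _ => k) s) •
      Measure.dirac (repl p N (fun _ => k) s)) Set.univ =
      ENNReal.ofReal (gw β N (ends p N fun _ => k) s) := by
    intro s
    rw [Measure.smul_apply, smul_eq_mul, measure_univ, mul_one]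
  simp_rw [e]
  rw [← ENNReal.ofReal_sum_of_nonneg fun i _ => (h3 b q β N _).2.1 i, (h3 b q β N _).2.2,
    ENNReal.ofReal_one]

theorem muN_int (h3 : S_GWF) (β : ℝ) (p : ℕ → Fin b × Bool) (k : Fin q) (N : ℕ)
    {f : (VInf p → Fin q) → ℝ} (hf : StronglyMeasurable f) :
    ∫ ω, f ω ∂(muN β p k N) = GG β p N f fun _ => k := by
  unfold muN GG
  rw [integral_finsetSum_measure]
  · apply Finset.sum_congr rfl
    intro s _
    rw [integral_smul_measure, integral_dirac' _ _ hf, ENNReal.toReal_ofReal ((h3 b q β N _).2.1 s),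
      smul_eq_mul]
  · intro s _
    apply Integrable.smul_measure _ ENNReal.ofReal_ne_top
    exact (integrable_dirac' hf (by simp : ‖f (repl p N (fun _ => k) s)‖ₑ < ⊤))

theorem lim_ex (h1 : S_CNS) (h2 : S_GEO) (h3 : S_GWF) (β : ℝ) (p : ℕ → Fin b × Bool)
    (k : Fin q) : ∃ μ : Measure (VInf p → Fin q), IsProbabilityMeasure μ ∧
      (∀ (n : ℕ) (f : (VInf p → Fin q) → ℝ), Continuous f →
        ∫ ω, f ω ∂μ = ∫ ω, GG β p n f ω ∂μ) ∧
      ∀ f : (VInf p → Fin q) → ℝ, Continuous f →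
        Tendsto (fun N => GG β p N f fun _ => k) (hyperfilter ℕ : Filter ℕ)
          (𝓝 (∫ ω, f ω ∂μ)) := by
  have : Countable (VInf p) := (h2 b q p).1
  let PM : ℕ → ProbabilityMeasure (VInf p → Fin q) := fun N =>
    ⟨muN β p k N, muN_prob h3 β p k N⟩
  let F : Ultrafilter (ProbabilityMeasure (VInf p → Fin q)) := (hyperfilter ℕ).map PM
  have : Nonempty (ProbabilityMeasure (VInf p → Fin q)) := ⟨PM 0⟩
  have hT : Tendsto PM (hyperfilter ℕ : Filter ℕ) (𝓝 F.lim) := by
    have := F.le_nhds_lim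
    exact this
  have key := ProbabilityMeasure.tendsto_iff_forall_integral_tendsto.1 hT
  have hc : ∀ f : (VInf p → Fin q) → ℝ, Continuous f →
      Tendsto (fun N => GG β p N f fun _ => k) (hyperfilter ℕ : Filter ℕ)
        (𝓝 (∫ ω, f ω ∂(F.lim : Measure (VInf p → Fin q)))) := by
    intro f hf
    have h4 := key (BoundedContinuousFunction.mkOfCompact ⟨f, hf⟩)
    refine h4.congr fun N => ?_
    exact muN_int h3 β p k N hf.stronglyMeasurable
  refine ⟨(F.lim : Measure (VInf p → Fin q)), inferInstance, fun n f hf => ?_, hc⟩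
  refine tendsto_nhds_unique_of_eventuallyEq (hc f hf) (hc _ (GG_cont h2 β n hf)) ?_
  refine Nat.hyperfilter_le_atTop (eventually_atTop.2 ⟨n + 1, fun N hN => ?_⟩)
  obtain ⟨j, rfl⟩ := Nat.exists_eq_add_of_le hN
  show GG β p (n + 1 + j) f (fun _ => k) = GG β p (n + 1 + j) (GG β p n f) fun _ => k
  rw [GG_cons h1]

/-- One term of the law after replacement. -/
def nus (β : ℝ) (p : ℕ → Fin b × Bool) (n : ℕ) (μ : Measure (VInf p → Fin q))
    (s : Vert b n → Fin q) : Measure (VInf p → Fin q) :=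
  (μ.withDensity fun ω => ENNReal.ofReal (gw β n (ends p n ω) s)).map fun ω => repl p n ω s

theorem gw_int (h2 : S_GEO) (h3 : S_GWF) (β : ℝ) (p : ℕ → Fin b × Bool) (n : ℕ)
    (μ : Measure (VInf p → Fin q)) [IsProbabilityMeasure μ] (s : Vert b n → Fin q) :
    Integrable (fun ω : VInf p → Fin q => gw β n (ends p n ω) s) μ := by
  have : Countable (VInf p) := (h2 b q p).1
  refine Integrable.of_bound (gw_cont β p n s).aestronglyMeasurable 1 (ae_of_all _ fun ω => ?_)
  rw [Real.norm_eq_abs, abs_of_nonneg ((h3 b q β n _).2.1 s)]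
  exact gw_le h3 β n _ s

theorem nus_fin (h2 : S_GEO) (h3 : S_GWF) (β : ℝ) (p : ℕ → Fin b × Bool) (n : ℕ)
    (μ : Measure (VInf p → Fin q)) [IsProbabilityMeasure μ] (s : Vert b n → Fin q) :
    IsFiniteMeasure (nus β p n μ s) := by
  have := isFiniteMeasure_withDensity_ofReal (gw_int h2 h3 β p n μ s).2
  unfold nus
  infer_instance

theorem nus_int (h2 : S_GEO) (h3 : S_GWF) (β : ℝ) (p : ℕ → Fin b × Bool) (n : ℕ)
    (μ : Measure (VInf p → Fin q)) [IsProbabilityMeasure μ] {f : (VInf p → Fin q) → ℝ}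
    (hf : Measurable f) (s : Vert b n → Fin q) :
    ∫ ω, f ω ∂(nus β p n μ s) = ∫ ω, gw β n (ends p n ω) s * f (repl p n ω s) ∂μ := by
  have : Countable (VInf p) := (h2 b q p).1
  unfold nus
  have hm : Measurable fun ω : VInf p → Fin q => ENNReal.ofReal (gw β n (ends p n ω) s) :=
    ENNReal.measurable_ofReal.comp (gw_cont β p n s).measurable
  rw [integral_map (repl_meas h2 p n s).aemeasurable hf.aestronglyMeasurable,
    integral_withDensity_eq_integral_toReal_smul hm
      (ae_of_all _ fun ω => ENNReal.ofReal_lt_top)]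
  apply integral_congr_ae
  refine ae_of_all _ fun ω => ?_
  beta_reduce
  rw [ENNReal.toReal_ofReal ((h3 b q β n _).2.1 s), smul_eq_mul]

/-- The law after replacement. -/
def nu (β : ℝ) (p : ℕ → Fin b × Bool) (n : ℕ) (μ : Measure (VInf p → Fin q)) :
    Measure (VInf p → Fin q) := ∑ s : Vert b n → Fin q, nus β p n μ s

theorem nu_fin (h2 : S_GEO) (h3 : S_GWF) (β : ℝ) (p : ℕ → Fin b × Bool) (n : ℕ)
    (μ : Measure (VInf p → Fin q)) [IsProbabilityMeasure μ] : IsFiniteMeasure (nu β p n μ) := by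
  constructor
  unfold nu
  rw [Measure.finsetSum_apply]
  refine ENNReal.sum_lt_top.2 fun s _ => ?_
  have := nus_fin h2 h3 β p n μ s
  exact measure_lt_top _ _

theorem nu_int (h2 : S_GEO) (h3 : S_GWF) (β : ℝ) (p : ℕ → Fin b × Bool) (n : ℕ)
    (μ : Measure (VInf p → Fin q)) [IsProbabilityMeasure μ] {f : (VInf p → Fin q) → ℝ}
    (hf : Measurable f) (hb : ∃ C, ∀ ω, |f ω| ≤ C) :
    ∫ ω, f ω ∂(nu β p n μ) = ∫ ω, GG β p n f ω ∂μ := by
  obtain ⟨C, hC⟩ := hb
  unfold nu
  rw [integral_finsetSum_measure]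
  · simp_rw [nus_int h2 h3 β p n μ hf]
    rw [← integral_finsetSum]
    · rfl
    · intro s _
      have : Countable (VInf p) := (h2 b q p).1
      refine (gw_int h2 h3 β p n μ s).mul_bdd (c := C)
        (hf.comp (repl_meas h2 p n s)).aestronglyMeasurable ?_
      exact ae_of_all _ fun ω => hC _
  · intro s _
    have := nus_fin h2 h3 β p n μ s
    exact Integrable.of_bound hf.aestronglyMeasurable C (ae_of_all _ fun z => hC _)

theorem t_exi (h1 : Pool.Agent.N990.PT.S_CNS) (h2 : Pool.Agent.N990.PT.S_GEO)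
    (h3 : Pool.Agent.N990.PT.S_GWF) : Pool.Agent.N990.PT.S_EXI := by
  intro b q β p k
  have : Countable (VInf p) := (h2 b q p).1
  obtain ⟨μ, hμ, H, H2⟩ := lim_ex h1 h2 h3 β p k
  refine ⟨μ, ⟨hμ, fun n f hf hb => ?_⟩, fun n f a ha => ?_⟩
  · have := nu_fin h2 h3 β p n μ
    have e : μ = nu β p n μ := by
      refine ext_of_forall_integral_eq_of_IsFiniteMeasure fun g => ?_
      rw [nu_int h2 h3 β p n μ g.continuous.measurable ⟨_, g.norm_coe_le_norm⟩]
      exact H n g g.continuous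
    have e2 := nu_int h2 h3 β p n μ hf hb
    rw [← e] at e2
    exact e2
  · exact ge_of_tendsto (H2 _ (fends_cont p n f)) (Nat.hyperfilter_le_atTop ha)

end

end Pool.Agent.N615.PT
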