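import Pool.Agent.N353.PT.Stm

/-!
# Project PT (helper353): all the paths

Written by helper615.
-/

set_option autoImplicit false

open Finset
open scoped Classical

namespace Pool.Agent.N615.PT

open Pool.Agent.N353.PT

theorem t_PATHS (h : S_STEP) : S_PATHS := by
  intro V _ T hT X0 m k M A B a b D EA EB W δA δB hk hm hF hW hdeg hC hM
  have key : ∀ n ≤ m, ∃ (σ τ : ℕ → Fin m) (r : ℕ → ℕ) (p : ℕ → ℕ → V) (RR : ℕ → Finset V),
      Inv T m k n a b D EA EB W σ τ r p RR := by
    intro n
    induction n with
    | zero =>
      intro _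
      refine ⟨fun _ => ⟨0, hm⟩, fun _ => ⟨0, hm⟩, fun _ => 0, fun _ _ => a ⟨0, hm⟩, fun _ => ∅,
        ?_, ?_, ?_, ?_⟩
      · constructor <;> intro i hi <;> exact absurd hi (Nat.not_lt_zero _)
      · obtain ⟨R, hR⟩ : ∃ R : Finset V, R = Rem 0 a b D W (fun _ => ⟨0, hm⟩) (fun _ => ⟨0, hm⟩)
          (fun _ => 0) (fun _ _ => a ⟨0, hm⟩) (fun _ => ∅) := ⟨_, rfl⟩
        rw [← hR]
        intro X hX u hu v hv
        have h1 : univ \ R ⊆ D ∪ W := by
          intro x hx
          by_contra hcon
          rw [mem_union, not_or] at hcon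
          apply (mem_sdiff.1 hx).2
          rw [hR]
          unfold Rem
          rw [mem_filter]
          exact ⟨mem_univ _, Or.inl hcon.1, hcon.2, fun l hl => absurd hl (Nat.not_lt_zero _)⟩
        have h2 : (X ∪ (univ \ R)).card < M := by
          have h3 := card_union_le X (univ \ R)
          have h4 := card_le_card h1
          have h5 := card_union_le D W
          have h6 : (m - 0) * (4 + 6 * k ^ 3) = 4 * m + 6 * k ^ 3 * m := by
            rw [Nat.sub_zero]
            ring
          rw [h6] at hX
          have h7 : 0 ≤ 6 * k ^ 3 * m := Nat.zero_le _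
          omega
        have h3 : univ \ (X ∪ (univ \ R)) = R \ X := by
          ext x
          simp only [mem_sdiff, mem_univ, true_and, mem_union, not_or, not_not]
          exact and_comm
        have h4 := hC _ h2
        rw [h3] at h4
        exact h4 u hu v hv
      · intro z _
        simp
      · intro z _
        simp
    | succ n ih =>
      intro hn
      obtain ⟨σ, τ, r, p, RR, hI⟩ := ih (by omega)
      exact h V T hT X0 m k n M A B a b D EA EB W δA δB σ τ r p RR hk (by omega) hF hW hdeg hM hI
  exact key m le_rfl

end Pool.Agent.N615.PT
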